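import Mathlib

/-!
# The detachment process of passengers and buses: definitions
-/

namespace Pool.Agent.Q287.DP

open MeasureTheory

/-- The bus occupied at time `k` by a passenger whose moves are recorded by `j`: at time `1` the
passenger is in bus `1`, and at time `k ≥ 2` he moves to the new bus `k` if `j k` is true and
stays where he is otherwise.  (The value at `k = 0` is never used.) -/
def bus (j : ℕ → Bool) : ℕ → ℕ
  | 0 => 1
  | 1 => 1
  | k + 2 => if j (k + 2) = true then k + 2 else bus j (k + 1)

/-- At time `k` the first `n` passengers (with indices `0, …, n-1`) occupy `n` distinct buses.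
Here `x i` records the moves of passenger `i`. -/
def Distinct (x : ℕ → ℕ → Bool) (n k : ℕ) : Prop :=
  Set.InjOn (fun i => bus (x i) k) (Set.Iio n)

/-- The first detachment time of the first `n` passengers is at most `k`: at some time
`j ∈ {1, …, k}` they occupy `n` distinct buses. -/
def Detached (x : ℕ → ℕ → Bool) (n k : ℕ) : Prop :=
  ∃ j, 1 ≤ j ∧ j ≤ k ∧ Distinct x n j

/-- `M(k)`: the largest `n` whose first detachment time is at most `k`. -/
noncomputable def Mx (x : ℕ → ℕ → Bool) (k : ℕ) : ℕ := sSup {n | Detached x n k}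

/-- Linear interpolation of a sequence between consecutive integers. -/
noncomputable def interp (a : ℕ → ℝ) (t : ℝ) : ℝ :=
  a ⌊t⌋₊ + (t - ⌊t⌋₊) * (a (⌊t⌋₊ + 1) - a ⌊t⌋₊)

/-- The rescaled process `M^(m)(t) = M(m² t) / m`, for `t ≥ 1/m²`. -/
noncomputable def rescaled (x : ℕ → ℕ → Bool) (m : ℕ) (t : ℝ) : ℝ :=
  interp (fun k => (Mx x k : ℝ)) ((m : ℝ) ^ 2 * t) / m

/-- Continuous paths on `(0, ∞)`, with the topology of uniform convergence on compact sets. -/
abbrev PathSpace : Type := C(Set.Ioi (0 : ℝ), ℝ)

instance : MeasurableSpace PathSpace := borel PathSpace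

instance : BorelSpace PathSpace := ⟨rfl⟩

end Pool.Agent.Q287.DP
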