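import Pool.Agent.Q287.DP.Defs

/-!
# Detachment process: deterministic facts, continuity and measurability of the paths
-/

namespace Pool.Agent.Q287.DP

open MeasureTheory Filter Topology

/-! ## Deterministic facts -/

theorem bus_pos (j : ℕ → Bool) (k : ℕ) : 1 ≤ bus j k := by
  induction k using Nat.strong_induction_on with
  | _ k ih =>
    match k with
    | 0 => exact le_rfl
    | 1 => exact le_rfl
    | k + 2 =>
      unfold bus
      split_ifs
      · omega
      · exact ih (k + 1) (by omega)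

theorem bus_le (j : ℕ → Bool) {k : ℕ} (hk : 1 ≤ k) : bus j k ≤ k := by
  induction k with
  | zero => omega
  | succ k ih =>
    match k with
    | 0 => exact le_rfl
    | k + 1 =>
      unfold bus
      split_ifs
      · omega
      · exact (ih (by omega)).trans (by omega)

theorem Distinct.mono {x : ℕ → ℕ → Bool} {n n' k : ℕ} (h : Distinct x n k) (hn : n' ≤ n) :
    Distinct x n' k := Set.InjOn.mono (fun _ hi => lt_of_lt_of_le hi hn) h

theorem Distinct.le {x : ℕ → ℕ → Bool} {n k : ℕ} (h : Distinct x n k) (hk : 1 ≤ k) : n ≤ k := by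
  have h1 : Set.MapsTo (fun i => bus (x i) k) (Finset.range n : Set ℕ)
      (Finset.Icc 1 k : Set ℕ) := by
    intro i _
    rw [Finset.mem_coe, Finset.mem_Icc]
    exact ⟨bus_pos _ _, bus_le _ hk⟩
  have h2 : Set.InjOn (fun i => bus (x i) k) (Finset.range n : Set ℕ) := by
    rw [Finset.coe_range]; exact h
  have := Finset.card_le_card_of_injOn _ h1 h2
  simpa using this

theorem Detached.mono {x : ℕ → ℕ → Bool} {n n' k : ℕ} (h : Detached x n k) (hn : n' ≤ n) :
    Detached x n' k := by
  obtain ⟨j, h1, h2, h3⟩ := h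
  exact ⟨j, h1, h2, h3.mono hn⟩

theorem Detached.mono_right {x : ℕ → ℕ → Bool} {n k k' : ℕ} (h : Detached x n k) (hk : k ≤ k') :
    Detached x n k' := by
  obtain ⟨j, h1, h2, h3⟩ := h
  exact ⟨j, h1, h2.trans hk, h3⟩

theorem Detached.le {x : ℕ → ℕ → Bool} {n k : ℕ} (h : Detached x n k) : n ≤ k := by
  obtain ⟨j, h1, h2, h3⟩ := h
  exact (h3.le h1).trans h2

theorem bddAbove_detached (x : ℕ → ℕ → Bool) (k : ℕ) : BddAbove {n | Detached x n k} :=
  ⟨k, fun _ hn => Detached.le hn⟩

theorem detached_zero (x : ℕ → ℕ → Bool) {k : ℕ} (hk : 1 ≤ k) : Detached x 0 k :=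
  ⟨1, le_rfl, hk, by intro i hi; exact absurd hi (Nat.not_lt_zero i)⟩

theorem le_Mx_iff (x : ℕ → ℕ → Bool) {k n : ℕ} (hk : 1 ≤ k) :
    n ≤ Mx x k ↔ Detached x n k := by
  constructor
  · intro h
    exact Detached.mono (Nat.sSup_mem ⟨0, detached_zero x hk⟩ (bddAbove_detached x k)) h
  · intro h
    exact le_csSup (bddAbove_detached x k) h

theorem Mx_mono (x : ℕ → ℕ → Bool) : Monotone (Mx x) := by
  intro k k' hkk
  rcases Nat.eq_zero_or_pos k with h | h
  · subst h
    have : {n | Detached x n 0} = ∅ := by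
      ext n
      simp only [Set.mem_ofPred_eq, Set.mem_empty_iff_false, iff_false]
      rintro ⟨j, h1, h2, _⟩
      omega
    have h0 : Mx x 0 = 0 := by unfold Mx; rw [this]; simp
    rw [h0]; exact Nat.zero_le _
  · have h1 : Detached x (Mx x k) k := (le_Mx_iff x h).1 le_rfl
    exact (le_Mx_iff x (le_trans h hkk)).2 (h1.mono_right hkk)

/-! ## Interpolation -/

theorem interp_nat (a : ℕ → ℝ) (k : ℕ) : interp a (k : ℝ) = a k := by
  simp [interp]

/-- clamp to `[0,1]` -/
noncomputable def clamp (y : ℝ) : ℝ := min (max y 0) 1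

theorem clamp_cont : Continuous clamp := by unfold clamp; fun_prop

theorem clamp_of_nonpos {y : ℝ} (h : y ≤ 0) : clamp y = 0 := by
  unfold clamp; rw [max_eq_right h]; simp

theorem clamp_of_one_le {y : ℝ} (h : 1 ≤ y) : clamp y = 1 := by
  unfold clamp; rw [max_eq_left (by linarith), min_eq_right h]

theorem clamp_of_mem {y : ℝ} (h0 : 0 ≤ y) (h : y ≤ 1) : clamp y = y := by
  unfold clamp; rw [max_eq_left h0, min_eq_left h]

theorem clamp_mono : Monotone clamp := fun _ _ h => min_le_min_right _ (max_le_max_right _ h)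

theorem interp_eq (a : ℕ → ℝ) {t : ℝ} (ht : 0 ≤ t) {N : ℕ} (hN : t < N) :
    interp a t = a 0 + ∑ k ∈ Finset.range N, clamp (t - k) * (a (k+1) - a k) := by
  set n := ⌊t⌋₊ with hn
  have hn1 : (n:ℝ) ≤ t := Nat.floor_le ht
  have hn2 : t < n + 1 := Nat.lt_floor_add_one t
  have hnN : n + 1 ≤ N := by
    have : (n:ℝ) < N := lt_of_le_of_lt hn1 hN
    exact_mod_cast this
  have h1 : ∑ k ∈ Finset.range n, clamp (t - k) * (a (k+1) - a k) = a n - a 0 := by
    rw [← Finset.sum_range_sub]
    refine Finset.sum_congr rfl fun k hk => ?_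
    have : (k:ℝ) + 1 ≤ n := by exact_mod_cast Finset.mem_range.1 hk
    rw [clamp_of_one_le (by linarith), one_mul]
  have h2 : ∀ M, n + 1 ≤ M → ∑ k ∈ Finset.range M, clamp (t - k) * (a (k+1) - a k) =
      a n - a 0 + (t - n) * (a (n+1) - a n) := by
    intro M hM
    induction M, hM using Nat.le_induction with
    | base =>
      rw [Finset.sum_range_succ, h1, clamp_of_mem (by linarith) (by linarith)]
    | succ M hM ih =>
      have : (n:ℝ) + 1 ≤ M := by exact_mod_cast hM
      rw [Finset.sum_range_succ, ih, clamp_of_nonpos (by linarith)]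
      ring
  rw [h2 N hnN]
  unfold interp
  rw [← hn]
  ring

theorem interp_mono {a : ℕ → ℝ} (ha : Monotone a) {s t : ℝ} (hs : 0 ≤ s) (hst : s ≤ t) :
    interp a s ≤ interp a t := by
  obtain ⟨N, hN⟩ := exists_nat_gt t
  rw [interp_eq a hs (lt_of_le_of_lt hst hN), interp_eq a (hs.trans hst) hN]
  refine add_le_add le_rfl (Finset.sum_le_sum fun k _ => ?_)
  exact mul_le_mul_of_nonneg_right (clamp_mono (by linarith))
    (sub_nonneg.2 (ha (Nat.le_succ k)))

theorem interp_continuous (m : ℕ) :
    Continuous fun p : (ℕ → ℝ) × Set.Ioi (0:ℝ) =>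
      interp p.1 (max ((m : ℝ) ^ 2 * (p.2 : ℝ)) 1) / m := by
  refine Continuous.div_const ?_ _
  rw [continuous_iff_continuousAt]
  rintro ⟨a, t⟩
  obtain ⟨N, hN⟩ := exists_nat_gt (max ((m : ℝ) ^ 2 * (t : ℝ)) 1)
  have hcont : Continuous fun p : (ℕ → ℝ) × Set.Ioi (0:ℝ) =>
      p.1 0 + ∑ k ∈ Finset.range N, clamp (max ((m : ℝ) ^ 2 * (p.2 : ℝ)) 1 - k) *
        (p.1 (k+1) - p.1 k) := by
    have h1 : ∀ k : ℕ, Continuous fun p : (ℕ → ℝ) × Set.Ioi (0:ℝ) => p.1 k := fun k =>
      (continuous_apply k).comp continuous_fst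
    have h2 : Continuous fun p : (ℕ → ℝ) × Set.Ioi (0:ℝ) => max ((m : ℝ) ^ 2 * (p.2 : ℝ)) 1 := by
      fun_prop
    refine (h1 0).add (continuous_finsetSum _ fun k _ => ?_)
    exact (clamp_cont.comp (h2.sub continuous_const)).mul ((h1 (k+1)).sub (h1 k))
  have hopen : IsOpen {p : (ℕ → ℝ) × Set.Ioi (0:ℝ) | max ((m : ℝ) ^ 2 * (p.2 : ℝ)) 1 < N} :=
    isOpen_lt (by fun_prop) continuous_const
  refine (hcont.continuousAt).congr ?_
  filter_upwards [hopen.mem_nhds hN] with p hp
  exact (interp_eq p.1 (zero_le_one.trans (le_max_right _ _)) hp).symm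

/-- interpolated and rescaled path of a sequence -/
noncomputable def seqPath (m : ℕ) (a : ℕ → ℝ) : PathSpace :=
  ⟨fun t => interp a (max ((m : ℝ) ^ 2 * (t : ℝ)) 1) / m,
    (interp_continuous m).comp (continuous_const.prodMk continuous_id)⟩

theorem seqPath_continuous (m : ℕ) : Continuous (seqPath m) := by
  refine ContinuousMap.continuous_of_continuous_uncurry _ ?_
  exact interp_continuous m

/-- The path of the rescaled process as an element of the path space. -/
noncomputable def path (x : ℕ → ℕ → Bool) (m : ℕ) : PathSpace :=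
  seqPath m fun k => (Mx x k : ℝ)

theorem path_apply (x : ℕ → ℕ → Bool) (m : ℕ) (t : Set.Ioi (0:ℝ))
    (h : 1 ≤ (m : ℝ) ^ 2 * (t : ℝ)) : path x m t = rescaled x m t := by
  change interp _ (max ((m : ℝ) ^ 2 * (t : ℝ)) 1) / m = interp _ ((m : ℝ) ^ 2 * (t : ℝ)) / m
  rw [max_eq_left h]

/-! ## Measurability -/

theorem bus_meas (k : ℕ) : Measurable fun j : ℕ → Bool => bus j k := by
  induction k using Nat.strong_induction_on with
  | _ k ih =>
    match k with
    | 0 => exact measurable_const
    | 1 => exact measurable_const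
    | k + 2 =>
      have h : (fun j : ℕ → Bool => bus j (k+2)) =
          fun j => if j (k + 2) = true then k + 2 else bus j (k + 1) := by
        funext j; rw [bus]
      rw [h]
      refine Measurable.ite ?_ measurable_const (ih (k + 1) (by omega))
      exact measurableSet_eq_fun (measurable_pi_apply (k + 2)) measurable_const

theorem distinct_meas (n k : ℕ) : MeasurableSet {x : ℕ → ℕ → Bool | Distinct x n k} := by
  have h : Measurable fun x : ℕ → ℕ → Bool => fun i : Fin n => bus (x i) k :=
    measurable_pi_lambda _ fun i => (bus_meas k).comp (measurable_pi_apply (i : ℕ))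
  have h2 : {x : ℕ → ℕ → Bool | Distinct x n k} =
      (fun x : ℕ → ℕ → Bool => fun i : Fin n => bus (x i) k) ⁻¹' {g | Function.Injective g} := by
    ext x
    simp only [Set.mem_ofPred_eq, Set.mem_preimage]
    constructor
    · intro hx i j hij
      exact Fin.ext (hx i.2 j.2 hij)
    · intro hx i hi j hj hij
      have := @hx ⟨i, hi⟩ ⟨j, hj⟩ hij
      exact congrArg Fin.val this
  rw [h2]
  exact h (Set.to_countable _).measurableSet

theorem detached_meas (n k : ℕ) : MeasurableSet {x : ℕ → ℕ → Bool | Detached x n k} := by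
  have : {x : ℕ → ℕ → Bool | Detached x n k} =
      ⋃ j ∈ Set.Icc 1 k, {x : ℕ → ℕ → Bool | Distinct x n j} := by
    ext x
    simp only [Detached, Set.mem_ofPred_eq, Set.mem_iUnion, Set.mem_Icc, exists_prop]
    constructor
    · rintro ⟨j, h1, h2, h3⟩; exact ⟨j, ⟨h1, h2⟩, h3⟩
    · rintro ⟨j, ⟨h1, h2⟩, h3⟩; exact ⟨j, h1, h2, h3⟩
  rw [this]
  exact MeasurableSet.biUnion (Set.to_countable _) fun j _ => distinct_meas n j

theorem Mx_meas (k : ℕ) : Measurable fun x : ℕ → ℕ → Bool => Mx x k := by
  rcases Nat.eq_zero_or_pos k with h | h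
  · subst h
    have : (fun x : ℕ → ℕ → Bool => Mx x 0) = fun _ => 0 := by
      funext x
      have : {n | Detached x n 0} = ∅ := by
        ext n
        simp only [Set.mem_ofPred_eq, Set.mem_empty_iff_false, iff_false]
        rintro ⟨j, h1, h2, _⟩
        omega
      unfold Mx; rw [this]; simp
    rw [this]; exact measurable_const
  · refine measurable_to_countable' fun n => ?_
    have : (fun x : ℕ → ℕ → Bool => Mx x k) ⁻¹' {n} =
        {x | Detached x n k} \ {x | Detached x (n+1) k} := by
      ext x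
      simp only [Set.mem_preimage, Set.mem_singleton_iff, Set.mem_sdiff, Set.mem_ofPred_eq]
      rw [← le_Mx_iff x h, ← le_Mx_iff x h]
      omega
    rw [this]
    exact (detached_meas n k).diff (detached_meas (n+1) k)

theorem path_meas (m : ℕ) : Measurable fun x : ℕ → ℕ → Bool => path x m := by
  refine (seqPath_continuous m).measurable.comp ?_
  exact measurable_pi_lambda _ fun k => (measurable_of_countable _).comp (Mx_meas k)

end Pool.Agent.Q287.DP
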