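import Pool.Agent.Q287.DP.Path

/-!
# Detachment process: probability estimates
-/

namespace Pool.Agent.Q287.DP

open MeasureTheory ProbabilityTheory Finset

variable {Ω : Type*} [MeasurableSpace Ω] {P : Measure Ω} [IsProbabilityMeasure P]


theorem indep_split {α : Type*} [MeasurableSpace α] [Inhabited α] (X : ℕ → Ω → α)
    (hX : ∀ i, Measurable (X i)) (hind : iIndepFun X P) (n : ℕ) (A : Set (ℕ → α))
    (hA : MeasurableSet A) (hdep : ∀ x y : ℕ → α, (∀ i < n, x i = y i) → (x ∈ A ↔ y ∈ A))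
    (B : Set α) (hB : MeasurableSet B) :
    P.real ({ω | (fun i => X i ω) ∈ A} ∩ {ω | X n ω ∈ B}) =
      P.real {ω | (fun i => X i ω) ∈ A} * P.real {ω | X n ω ∈ B} := by
  classical
  have hdisj : Disjoint (range n) {n} := by simp
  have h := hind.indepFun_finset (range n) {n} hdisj hX
  set ext : ((i : range n) → α) → (ℕ → α) := fun g i => if h : i ∈ range n then g ⟨i, h⟩ else default
    with hext
  have hextm : Measurable ext := by
    refine measurable_pi_lambda _ fun i => ?_
    by_cases hi : i ∈ range n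
    · simp only [hext, hi, dif_pos]
      exact measurable_pi_apply _
    · simp only [hext, hi, dif_neg, not_false_eq_true]
      exact measurable_const
  have e1 : {ω | (fun i => X i ω) ∈ A} = (fun ω (i : range n) => X i ω) ⁻¹' (ext ⁻¹' A) := by
    ext ω
    change (fun i => X i ω) ∈ A ↔ ext (fun i : range n => X i ω) ∈ A
    refine hdep _ _ fun i hi => ?_
    have : i ∈ range n := Finset.mem_range.2 hi
    simp only [hext, this, dif_pos]
  have e2 : {ω | X n ω ∈ B} = (fun ω (i : ({n} : Finset ℕ)) => X i ω) ⁻¹'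
      {g | g ⟨n, Finset.mem_singleton_self n⟩ ∈ B} := by
    ext ω; rfl
  have hm := h.measure_inter_preimage_eq_mul (ext ⁻¹' A)
    {g | g ⟨n, Finset.mem_singleton_self n⟩ ∈ B} (hextm hA) ((measurable_pi_apply _) hB)
  rw [← e1, ← e2] at hm
  simp only [Measure.real]
  rw [hm, ENNReal.toReal_mul]

theorem bus_congr (k : ℕ) : ∀ x y : ℕ → Bool, (∀ i < k + 1, x i = y i) → bus x k = bus y k := by
  induction k using Nat.strong_induction_on with
  | _ k ih =>
    intro x y h
    match k with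
    | 0 => rfl
    | 1 => rfl
    | k + 2 =>
      unfold bus
      rw [h (k+2) (by omega), ih (k+1) (by omega) x y fun i hi => h i (by omega)]

theorem bus_law (X : ℕ → Ω → Bool) (hX : ∀ k, Measurable (X k)) (hind : iIndepFun X P)
    (hlaw : ∀ k, 2 ≤ k → P {ω | X k ω = true} = ENNReal.ofReal (1 / k)) {k : ℕ} (hk : 1 ≤ k)
    (b : ℕ) : P.real {ω | bus (fun l => X l ω) k = b} ≤ 1 / k := by
  induction k, hk using Nat.le_induction generalizing b with
  | base => simp
  | succ k hk ih =>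
    have hkr : (0:ℝ) < k := by exact_mod_cast hk
    have hT : P.real {ω | X (k+1) ω = true} = 1 / ((k:ℝ) + 1) := by
      unfold Measure.real
      rw [hlaw (k+1) (by omega)]
      push_cast
      exact ENNReal.toReal_ofReal (by positivity)
    have hbus : ∀ ω, bus (fun l => X l ω) (k+1) =
        if X (k+1) ω = true then k + 1 else bus (fun l => X l ω) k := by
      intro ω
      obtain ⟨k', rfl⟩ : ∃ k', k = k' + 1 := ⟨k - 1, by omega⟩
      rw [bus]
    push_cast
    by_cases hb : b = k + 1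
    · rw [← hT]
      refine measureReal_mono fun ω hω => ?_
      have hω' : bus (fun l => X l ω) (k+1) = b := hω
      change X (k+1) ω = true
      by_contra h
      rw [hbus, if_neg h] at hω'
      have := bus_le (fun l => X l ω) hk
      omega
    · have hF : P.real {ω | X (k+1) ω ∈ ({false} : Set Bool)} = 1 - 1 / ((k:ℝ) + 1) := by
        have h1 : {ω | X (k+1) ω ∈ ({false} : Set Bool)} = {ω | X (k+1) ω = true}ᶜ := by
          ext ω; simp
        rw [h1, probReal_compl_eq_one_sub, hT]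
        exact measurableSet_eq_fun (hX _) measurable_const
      have hsub : {ω | bus (fun l => X l ω) (k+1) = b} ⊆
          {ω | (fun i => X i ω) ∈ {j : ℕ → Bool | bus j k = b}} ∩
            {ω | X (k+1) ω ∈ ({false} : Set Bool)} := by
        intro ω hω
        have hω' : bus (fun l => X l ω) (k+1) = b := hω
        rw [hbus] at hω'
        split_ifs at hω' with h
        · exact absurd hω'.symm hb
        · exact ⟨hω', by simpa using h⟩
      refine (measureReal_mono hsub).trans ?_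
      rw [indep_split X hX hind (k+1) _ (by
        exact measurableSet_eq_fun (bus_meas k) measurable_const) (fun x y h => by
          change bus x k = b ↔ bus y k = b
          rw [bus_congr k x y h]) _ (MeasurableSet.singleton _), hF]
      have h2 := ih b
      have h3 : (0:ℝ) ≤ 1 - 1 / ((k:ℝ) + 1) := by
        rw [sub_nonneg, div_le_one (by positivity)]; linarith
      refine (mul_le_mul_of_nonneg_right h2 h3).trans (le_of_eq ?_)
      field_simp
      ring

section passengers

variable (J : ℕ → Ω → ℕ → Bool) (hJ : ∀ i, Measurable (J i)) (hpass : iIndepFun J P)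
  (htime : ∀ i, iIndepFun (fun k ω => J i ω k) P)
  (hlaw : ∀ i k, 2 ≤ k → P {ω | J i ω k = true} = ENNReal.ofReal (1 / k))
include hJ hpass htime hlaw

omit hpass in
theorem bus_law' (i : ℕ) {k : ℕ} (hk : 1 ≤ k) (b : ℕ) :
    P.real {ω | bus (J i ω) k = b} ≤ 1 / k :=
  bus_law (fun k ω => J i ω k) (fun k => (measurable_pi_apply k).comp (hJ i)) (htime i) (hlaw i)
    hk b

theorem collide_le (A : Set (ℕ → ℕ → Bool)) (hA : MeasurableSet A) {n k : ℕ} (hk : 1 ≤ k)
    (hdep : ∀ x y : ℕ → ℕ → Bool, (∀ i < n, x i = y i) → (x ∈ A ↔ y ∈ A)) {i : ℕ} (hi : i < n) :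
    P.real {ω | (fun i => J i ω) ∈ A ∧ bus (J i ω) k = bus (J n ω) k} ≤
      1 / k * P.real {ω | (fun i => J i ω) ∈ A} := by
  have hJm : Measurable fun ω => (fun i => J i ω : ℕ → ℕ → Bool) := measurable_pi_lambda _ hJ
  set Ab : ℕ → Set (ℕ → ℕ → Bool) := fun b => A ∩ {x | bus (x i) k = b} with hAb
  have hAbm : ∀ b, MeasurableSet (Ab b) := fun b =>
    hA.inter (measurableSet_eq_fun ((bus_meas k).comp (measurable_pi_apply i)) measurable_const)
  have hsub : {ω | (fun i => J i ω) ∈ A ∧ bus (J i ω) k = bus (J n ω) k} ⊆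
      ⋃ b ∈ range (k+1), ({ω | (fun i => J i ω) ∈ Ab b} ∩ {ω | J n ω ∈ {j | bus j k = b}}) := by
    intro ω hω
    have h1 := bus_le (J i ω) hk
    refine Set.mem_biUnion (Finset.mem_coe.2 (Finset.mem_range.2 (show bus (J i ω) k < k + 1 by omega))) ?_
    exact ⟨⟨hω.1, rfl⟩, hω.2.symm⟩
  refine (measureReal_mono hsub (measure_ne_top _ _)).trans
    ((measureReal_biUnion_finset_le _ _).trans ?_)
  have h2 : ∀ b ∈ range (k+1),
      P.real ({ω | (fun i => J i ω) ∈ Ab b} ∩ {ω | J n ω ∈ {j | bus j k = b}}) ≤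
        1 / k * P.real {ω | (fun i => J i ω) ∈ Ab b} := by
    intro b _
    rw [indep_split J hJ hpass n (Ab b) (hAbm b) (fun x y h => by
      change (x ∈ A ∧ bus (x i) k = b) ↔ (y ∈ A ∧ bus (y i) k = b)
      rw [hdep x y h, h i hi]) _ (measurableSet_eq_fun (bus_meas k) measurable_const), mul_comm]
    exact mul_le_mul_of_nonneg_right (bus_law' J hJ htime hlaw n hk b) measureReal_nonneg
  refine (Finset.sum_le_sum h2).trans ?_
  rw [← Finset.mul_sum]
  refine mul_le_mul_of_nonneg_left ?_ (by positivity)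
  rw [← measureReal_biUnion_finset]
  · refine measureReal_mono ?_
    intro ω hω
    rw [Set.mem_iUnion₂] at hω
    obtain ⟨b, _, hb⟩ := hω
    exact hb.1
  · intro b _ b' _ hbb
    refine Set.disjoint_left.2 fun ω h1 h2 => hbb ?_
    exact h1.2.symm.trans h2.2
  · intro b _
    exact hJm (hAbm b)

theorem step_le (A : Set (ℕ → ℕ → Bool)) (hA : MeasurableSet A) {n k : ℕ} (hk : 1 ≤ k)
    (hdep : ∀ x y : ℕ → ℕ → Bool, (∀ i < n, x i = y i) → (x ∈ A ↔ y ∈ A))
    (hAD : ∀ x ∈ A, Distinct x n k) :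
    (1 - (n:ℝ) / k) * P.real {ω | (fun i => J i ω) ∈ A} ≤
      P.real {ω | (fun i => J i ω) ∈ A ∧ Distinct (fun i => J i ω) (n+1) k} := by
  have hsub : {ω | (fun i => J i ω) ∈ A} ⊆
      {ω | (fun i => J i ω) ∈ A ∧ Distinct (fun i => J i ω) (n+1) k} ∪
      ⋃ i ∈ range n, {ω | (fun i => J i ω) ∈ A ∧ bus (J i ω) k = bus (J n ω) k} := by
    intro ω hω
    by_cases hD : Distinct (fun i => J i ω) (n+1) k
    · exact Or.inl ⟨hω, hD⟩
    · right
      by_contra hcon
      apply hD
      have h1 : ∀ i < n, bus (J i ω) k ≠ bus (J n ω) k := by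
        intro i hi heq
        exact hcon (Set.mem_biUnion (Finset.mem_coe.2 (Finset.mem_range.2 hi)) ⟨hω, heq⟩)
      have h2 := hAD _ hω
      intro i hi j hj hij
      rcases Nat.lt_succ_iff_lt_or_eq.1 hi with hi' | hi'
      · rcases Nat.lt_succ_iff_lt_or_eq.1 hj with hj' | hj'
        · exact h2 hi' hj' hij
        · subst hj'; exact absurd hij (h1 i hi')
      · rcases Nat.lt_succ_iff_lt_or_eq.1 hj with hj' | hj'
        · subst hi'; exact absurd hij.symm (h1 j hj')
        · rw [hi', hj']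
  have h3 := (measureReal_mono (μ := P) hsub).trans (measureReal_union_le _ _)
  have h4 : P.real (⋃ i ∈ range n,
      {ω | (fun i => J i ω) ∈ A ∧ bus (J i ω) k = bus (J n ω) k}) ≤
      n * (1 / k * P.real {ω | (fun i => J i ω) ∈ A}) := by
    refine (measureReal_biUnion_finset_le _ _).trans ?_
    refine (Finset.sum_le_sum fun i hi =>
      collide_le J hJ hpass htime hlaw A hA hk hdep (Finset.mem_range.1 hi)).trans ?_
    rw [Finset.sum_const, Finset.card_range, nsmul_eq_mul]
  have h5 : (n:ℝ) * (1 / k * P.real {ω | (fun i => J i ω) ∈ A}) =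
      (n:ℝ) / k * P.real {ω | (fun i => J i ω) ∈ A} := by ring
  rw [h5] at h4
  linarith

theorem iter_le (A : Set (ℕ → ℕ → Bool)) (hA : MeasurableSet A) {n k N : ℕ} (hk : 1 ≤ k)
    (hdep : ∀ x y : ℕ → ℕ → Bool, (∀ i < n, x i = y i) → (x ∈ A ↔ y ∈ A))
    (hAD : ∀ x ∈ A, Distinct x n k) (hNk : N ≤ k) (d : ℕ) (hd : n + d ≤ N) :
    (1 - (N:ℝ) / k) ^ d * P.real {ω | (fun i => J i ω) ∈ A} ≤
      P.real {ω | (fun i => J i ω) ∈ A ∧ Distinct (fun i => J i ω) (n+d) k} := by
  have hkr : (0:ℝ) < k := by exact_mod_cast hk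
  have hq0 : (0:ℝ) ≤ 1 - (N:ℝ) / k := by
    rw [sub_nonneg, div_le_one hkr]; exact_mod_cast hNk
  induction d with
  | zero =>
    rw [pow_zero, one_mul]
    exact measureReal_mono fun ω hω => ⟨hω, hAD _ hω⟩
  | succ d ih =>
    have ih' := ih (by omega)
    set A' : Set (ℕ → ℕ → Bool) := A ∩ {x | Distinct x (n+d) k} with hA'
    have hA'm : MeasurableSet A' := hA.inter (distinct_meas _ _)
    have hdep' : ∀ x y : ℕ → ℕ → Bool, (∀ i < n + d, x i = y i) → (x ∈ A' ↔ y ∈ A') := by
      intro x y h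
      have h1 := hdep x y fun i hi => h i (by omega)
      have h2 : Distinct x (n+d) k ↔ Distinct y (n+d) k := by
        unfold Distinct
        refine Set.EqOn.injOn_iff fun i hi => ?_
        rw [h i hi]
      change (x ∈ A ∧ Distinct x (n+d) k) ↔ (y ∈ A ∧ Distinct y (n+d) k)
      rw [h1, h2]
    have h3 := step_le J hJ hpass htime hlaw A' hA'm hk hdep' fun x hx => hx.2
    have h4 : P.real {ω | (fun i => J i ω) ∈ A' ∧ Distinct (fun i => J i ω) (n+d+1) k} ≤
        P.real {ω | (fun i => J i ω) ∈ A ∧ Distinct (fun i => J i ω) (n+(d+1)) k} :=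
      measureReal_mono fun ω hω => ⟨hω.1.1, hω.2⟩
    have h5 : (1 - (N:ℝ) / k) ≤ 1 - ((n+d : ℕ):ℝ) / k := by
      have : ((n+d : ℕ):ℝ) ≤ N := by exact_mod_cast (by omega : n + d ≤ N)
      have := div_le_div_of_nonneg_right this hkr.le
      linarith
    calc (1 - (N:ℝ) / k) ^ (d+1) * P.real {ω | (fun i => J i ω) ∈ A}
        = (1 - (N:ℝ) / k) * ((1 - (N:ℝ) / k) ^ d * P.real {ω | (fun i => J i ω) ∈ A}) := by
          rw [pow_succ]; ring
      _ ≤ (1 - (N:ℝ) / k) * P.real {ω | (fun i => J i ω) ∈ A'} :=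
          mul_le_mul_of_nonneg_left ih' hq0
      _ ≤ (1 - ((n+d : ℕ):ℝ) / k) * P.real {ω | (fun i => J i ω) ∈ A'} :=
          mul_le_mul_of_nonneg_right h5 measureReal_nonneg
      _ ≤ _ := h3.trans h4

theorem bern_le (A : Set (ℕ → ℕ → Bool)) (hA : MeasurableSet A) {n k N : ℕ} (hk : 1 ≤ k)
    (hdep : ∀ x y : ℕ → ℕ → Bool, (∀ i < n, x i = y i) → (x ∈ A ↔ y ∈ A))
    (hAD : ∀ x ∈ A, Distinct x n k) (hNk : N ≤ k) (d : ℕ) (hd : n + d ≤ N) :
    (1 - (d:ℝ) * N / k) * P.real {ω | (fun i => J i ω) ∈ A} ≤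
      P.real {ω | (fun i => J i ω) ∈ A ∧ Distinct (fun i => J i ω) (n+d) k} := by
  have hkr : (0:ℝ) < k := by exact_mod_cast hk
  refine le_trans ?_ (iter_le J hJ hpass htime hlaw A hA hk hdep hAD hNk d hd)
  refine mul_le_mul_of_nonneg_right ?_ measureReal_nonneg
  have h1 : (N:ℝ) / k ≤ 1 := by rw [div_le_one hkr]; exact_mod_cast hNk
  have h2 := one_add_mul_le_pow (a := -((N:ℝ) / k)) (by linarith) d
  calc 1 - (d:ℝ) * N / k = 1 + d * (-((N:ℝ) / k)) := by ring
    _ ≤ (1 + -((N:ℝ) / k)) ^ d := h2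
    _ = (1 - (N:ℝ) / k) ^ d := by ring

theorem distinct_ge {n k : ℕ} (hk : 1 ≤ k) (hnk : n ≤ k) :
    1 - (n:ℝ) * n / k ≤ P.real {ω | Distinct (fun i => J i ω) n k} := by
  have h := bern_le J hJ hpass htime hlaw Set.univ MeasurableSet.univ (n := 0) (N := n) hk
    (fun x y _ => by simp) (fun x _ i hi => absurd hi (Nat.not_lt_zero i)) hnk n (by omega)
  simpa using h

/-- first detachment time equal to `k` -/
def First (n k : ℕ) : Set (ℕ → ℕ → Bool) :=
  {x | Distinct x n k ∧ ∀ j, 1 ≤ j → j < k → ¬ Distinct x n j}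

omit hJ hpass htime hlaw in
theorem first_meas (n k : ℕ) : MeasurableSet (First n k) := by
  have : First n k = {x | Distinct x n k} ∩ ⋂ j ∈ Set.Ico 1 k, {x | Distinct x n j}ᶜ := by
    ext x
    simp only [First, Set.mem_ofPred_eq, Set.mem_inter_iff, Set.mem_iInter, Set.mem_Ico,
      Set.mem_compl_iff]
    constructor
    · rintro ⟨h1, h2⟩; exact ⟨h1, fun j hj => h2 j hj.1 hj.2⟩
    · rintro ⟨h1, h2⟩; exact ⟨h1, fun j hj hj' => h2 j ⟨hj, hj'⟩⟩
  rw [this]
  exact (distinct_meas n k).inter (MeasurableSet.biInter (Set.to_countable _)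
    fun j _ => (distinct_meas n j).compl)

omit hJ hpass htime hlaw in
theorem distinct_congr {x y : ℕ → ℕ → Bool} {n : ℕ} (h : ∀ i < n, x i = y i) (k : ℕ) :
    Distinct x n k ↔ Distinct y n k := by
  unfold Distinct
  refine Set.EqOn.injOn_iff fun i hi => ?_
  rw [h i hi]

omit hJ hpass htime hlaw in
theorem first_congr {x y : ℕ → ℕ → Bool} {n : ℕ} (h : ∀ i < n, x i = y i) (k : ℕ) :
    x ∈ First n k ↔ y ∈ First n k := by
  change (Distinct x n k ∧ ∀ j, 1 ≤ j → j < k → ¬ Distinct x n j) ↔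
    (Distinct y n k ∧ ∀ j, 1 ≤ j → j < k → ¬ Distinct y n j)
  simp only [distinct_congr h]

/-- The key estimate: with probability bounded below, at the first time when the first `n`
passengers are separated, the first `n + d` passengers are separated as well. -/
theorem jump_prob {n d K0 K : ℕ} (hK0 : 1 ≤ K0) (hnd : n + d ≤ K0)
    (hθ' : 0 ≤ 1 - (d:ℝ) * (n + d) / K0) :
    (1 - (d:ℝ) * (n + d) / K0) *
      (P.real {ω | Detached (fun i => J i ω) n K} - P.real {ω | Detached (fun i => J i ω) n K0}) ≤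
    P.real {ω | ∃ k, K0 < k ∧ k ≤ K ∧ (fun i => J i ω) ∈ First n k ∧
      Distinct (fun i => J i ω) (n+d) k} := by
  have hJm : Measurable fun ω => (fun i => J i ω : ℕ → ℕ → Bool) := measurable_pi_lambda _ hJ
  have hK0r : (0:ℝ) < K0 := by exact_mod_cast hK0
  have h1 : P.real {ω | Detached (fun i => J i ω) n K} ≤
      P.real {ω | Detached (fun i => J i ω) n K0} +
        ∑ k ∈ Ioc K0 K, P.real {ω | (fun i => J i ω) ∈ First n k} := by
    have hsub : {ω | Detached (fun i => J i ω) n K} ⊆ {ω | Detached (fun i => J i ω) n K0} ∪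
        ⋃ k ∈ Ioc K0 K, {ω | (fun i => J i ω) ∈ First n k} := by
      intro ω hω
      by_cases h0 : Detached (fun i => J i ω) n K0
      · exact Or.inl h0
      · right
        classical
        have hex : ∃ j, 1 ≤ j ∧ Distinct (fun i => J i ω) n j := by
          obtain ⟨j, hj1, _, hj3⟩ := hω
          exact ⟨j, hj1, hj3⟩
        have hspec := Nat.find_spec hex
        have hmin : ∀ j, 1 ≤ j → j < Nat.find hex → ¬ Distinct (fun i => J i ω) n j :=
          fun j hj hj' hD => Nat.find_min hex hj' ⟨hj, hD⟩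
        have hlt : K0 < Nat.find hex := by
          by_contra hcon
          exact h0 ⟨_, hspec.1, not_lt.1 hcon, hspec.2⟩
        have hle : Nat.find hex ≤ K := by
          obtain ⟨j, hj1, hj2, hj3⟩ := hω
          exact (Nat.find_min' hex ⟨hj1, hj3⟩).trans hj2
        exact Set.mem_biUnion (Finset.mem_coe.2 (Finset.mem_Ioc.2 ⟨hlt, hle⟩)) ⟨hspec.2, hmin⟩
    refine (measureReal_mono hsub).trans ((measureReal_union_le _ _).trans ?_)
    exact add_le_add le_rfl (measureReal_biUnion_finset_le _ _)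
  have h2 : ∀ k ∈ Ioc K0 K, (1 - (d:ℝ) * (n + d) / K0) *
      P.real {ω | (fun i => J i ω) ∈ First n k} ≤
      P.real {ω | (fun i => J i ω) ∈ First n k ∧ Distinct (fun i => J i ω) (n+d) k} := by
    intro k hk
    rw [Finset.mem_Ioc] at hk
    have hkr : (K0:ℝ) ≤ k := by exact_mod_cast hk.1.le
    refine le_trans ?_ (bern_le J hJ hpass htime hlaw (First n k) (first_meas n k) (N := n + d)
      (by omega) (fun x y h => first_congr h k) (fun x hx => hx.1) (by omega) d le_rfl)
    refine mul_le_mul_of_nonneg_right ?_ measureReal_nonneg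
    have h3 : (d:ℝ) * ((n + d : ℕ):ℝ) / k ≤ (d:ℝ) * (n + d) / K0 := by
      push_cast
      exact div_le_div_of_nonneg_left (by positivity) hK0r hkr
    linarith
  have h4 := Finset.sum_le_sum h2
  rw [← Finset.mul_sum] at h4
  have h5 : ∑ k ∈ Ioc K0 K,
      P.real {ω | (fun i => J i ω) ∈ First n k ∧ Distinct (fun i => J i ω) (n+d) k} ≤
      P.real {ω | ∃ k, K0 < k ∧ k ≤ K ∧ (fun i => J i ω) ∈ First n k ∧
      Distinct (fun i => J i ω) (n+d) k} := by
    rw [← measureReal_biUnion_finset]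
    · refine measureReal_mono ?_
      intro ω hω
      rw [Set.mem_iUnion₂] at hω
      obtain ⟨k, hk, hk2⟩ := hω
      have hk' := Finset.mem_Ioc.1 (Finset.mem_coe.1 hk)
      exact ⟨k, hk'.1, hk'.2, hk2.1, hk2.2⟩
    · intro k hk k' hk' hkk
      refine Set.disjoint_left.2 fun ω h1 h2 => hkk ?_
      have hka := Finset.mem_Ioc.1 (Finset.mem_coe.1 hk)
      have hkb := Finset.mem_Ioc.1 (Finset.mem_coe.1 hk')
      have ha : (fun i => J i ω) ∈ First n k := h1.1
      have hb : (fun i => J i ω) ∈ First n k' := h2.1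
      rcases lt_trichotomy k k' with h | h | h
      · exact absurd ha.1 (hb.2 k (by omega) h)
      · exact h
      · exact absurd hb.1 (ha.2 k' (by omega) h)
    · intro k _
      exact hJm ((first_meas n k).inter (distinct_meas (n+d) k))
  refine le_trans ?_ h5
  refine le_trans ?_ h4
  exact mul_le_mul_of_nonneg_left (by linarith) hθ'

end passengers

end Pool.Agent.Q287.DP
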